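import Pool.Agent.W845.DH.Stm

set_option autoImplicit false
open scoped Classical
open Filter Topology
open scoped BigOperators

namespace Pool.Agent.W168.DH

open Pool.Agent.W845.DH

lemma ne_of_not_same {V : Type} [Fintype V] {σ : Equiv.Perm V} {a b : V}
    (h : ¬ σ.SameCycle a b) : a ≠ b := by
  rintro rfl
  exact h (Equiv.Perm.SameCycle.refl σ a)

theorem fw2 : S_SW3 → S_SW6 → S_FW2 := by
  intro h3 h6 V _ D σ hopt
  refine ⟨?_, ?_⟩
  · intro u x y hux hxy hyu nux nuy
    by_contra nxy
    have e3 := h3 V σ u x y nux nuy nxy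
    have a1 := ne_of_not_same nux
    have a2 := ne_of_not_same nuy
    have a3 := ne_of_not_same nxy
    have hf : ∀ z, D z ((σ * Equiv.swap u x * Equiv.swap x y) z) := by
      intro z
      rw [Equiv.Perm.mul_apply, Equiv.Perm.mul_apply]
      by_cases z1 : z = u
      · subst z1
        rw [Equiv.swap_apply_of_ne_of_ne a1 a2, Equiv.swap_apply_left]
        exact hux
      by_cases z2 : z = x
      · subst z2
        rw [Equiv.swap_apply_left, Equiv.swap_apply_of_ne_of_ne a2.symm a3.symm]
        exact hxy
      by_cases z3 : z = y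
      · subst z3
        rw [Equiv.swap_apply_right, Equiv.swap_apply_right]
        exact hyu
      rw [Equiv.swap_apply_of_ne_of_ne z2 z3, Equiv.swap_apply_of_ne_of_ne z1 z2]
      exact hopt.1 z
    have := hopt.2 _ hf
    omega
  · intro u u' x y x' y' h1 h2 h3' h4 h5 h6' nuu nux nux' sxy sxx sxy' e1 e2 e3 e4 e5 e6
    by_contra hn
    have key := h6 V σ u u' x y x' y' nuu nux nux' e3 sxy sxx sxy' hn
    have b0 := ne_of_not_same nuu
    have b1 := ne_of_not_same nux
    have b2 := ne_of_not_same nux'
    have b3 : u ≠ y := by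
      rintro rfl; exact nux sxy.symm
    have b4 : u ≠ x' := by
      rintro rfl; exact nux sxx.symm
    have b5 : u ≠ y' := by
      rintro rfl; exact nux sxy'.symm
    have b6 : u' ≠ y := by
      rintro rfl; exact nux' sxy.symm
    have b7 : u' ≠ x' := by
      rintro rfl; exact nux' sxx.symm
    have b8 : u' ≠ y' := by
      rintro rfl; exact nux' sxy'.symm
    have hf : ∀ z, D z ((σ * Equiv.swap x y * Equiv.swap y u * Equiv.swap u' x' *
        Equiv.swap x' y') z) := by
      intro z
      rw [Equiv.Perm.mul_apply, Equiv.Perm.mul_apply, Equiv.Perm.mul_apply, Equiv.Perm.mul_apply]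
      by_cases z1 : z = u
      · subst z1
        rw [Equiv.swap_apply_of_ne_of_ne b4 b5, Equiv.swap_apply_of_ne_of_ne b0 b4,
          Equiv.swap_apply_right, Equiv.swap_apply_right]
        exact h1
      by_cases z2 : z = x
      · subst z2
        rw [Equiv.swap_apply_of_ne_of_ne e1 e4, Equiv.swap_apply_of_ne_of_ne b2.symm e1,
          Equiv.swap_apply_of_ne_of_ne e3 b1.symm, Equiv.swap_apply_left]
        exact h2
      by_cases z3 : z = y
      · subst z3
        rw [Equiv.swap_apply_of_ne_of_ne e5.symm e2, Equiv.swap_apply_of_ne_of_ne b6.symm e5.symm,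
          Equiv.swap_apply_left, Equiv.swap_apply_of_ne_of_ne b1 b3]
        exact h3'
      by_cases z4 : z = u'
      · subst z4
        rw [Equiv.swap_apply_of_ne_of_ne b7 b8, Equiv.swap_apply_left,
          Equiv.swap_apply_of_ne_of_ne e5 b4.symm, Equiv.swap_apply_of_ne_of_ne e1.symm e5]
        exact h4
      by_cases z5 : z = x'
      · subst z5
        rw [Equiv.swap_apply_left, Equiv.swap_apply_of_ne_of_ne b8.symm e6.symm,
          Equiv.swap_apply_of_ne_of_ne e2.symm b5.symm, Equiv.swap_apply_of_ne_of_ne e4.symm e2.symm]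
        exact h5
      by_cases z6 : z = y'
      · subst z6
        rw [Equiv.swap_apply_right, Equiv.swap_apply_right,
          Equiv.swap_apply_of_ne_of_ne b6 b0.symm, Equiv.swap_apply_of_ne_of_ne b2 b6]
        exact h6'
      rw [Equiv.swap_apply_of_ne_of_ne z5 z6, Equiv.swap_apply_of_ne_of_ne z4 z5,
        Equiv.swap_apply_of_ne_of_ne z3 z1, Equiv.swap_apply_of_ne_of_ne z2 z3]
      exact hopt.1 z
    have := hopt.2 _ hf
    omega

end Pool.Agent.W168.DH
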